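import Pool.Agent.H.MP_8ed827_gt.Defs

open MeasureTheory Set
open scoped ENNReal NNReal

namespace Pool.Agent.H.MP_8ed827_gt

noncomputable section

abbrev V := Fin 5 → ℝ

theorem ac_comp {c : ℝ → V} {t0 t1 : ℝ} (hc : AbsolutelyContinuousOnInterval c t0 t1)
    {S : V → ℝ} (hS : ContDiff ℝ 1 S) :
    AbsolutelyContinuousOnInterval (fun t => S (c t)) t0 t1 := by
  obtain ⟨C, hC⟩ := hc.exists_bound
  obtain ⟨K, hK⟩ := (hS.contDiffOn (s := Metric.closedBall 0 C)).exists_lipschitzOnWith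
    (by decide) (convex_closedBall _ _) (isCompact_closedBall _ _)
  rw [absolutelyContinuousOnInterval_iff] at hc ⊢
  intro ε hε
  obtain ⟨δ, hδ, h⟩ := hc (ε / (K + 1)) (by positivity)
  refine ⟨δ, hδ, fun E hE hE2 => ?_⟩
  have h1 := h E hE hE2
  calc
    _ ≤ ∑ i ∈ Finset.range E.1, K * dist (c (E.2 i).1) (c (E.2 i).2) := by
      apply Finset.sum_le_sum
      intro i hi
      refine hK.dist_le_mul _ ?_ _ ?_
      · simpa using hC _ (hE.left i hi).left
      · simpa using hC _ (hE.left i hi).right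
    _ = K * ∑ i ∈ Finset.range E.1, dist (c (E.2 i).1) (c (E.2 i).2) := by
      rw [Finset.mul_sum]
    _ ≤ K * (ε / (K + 1)) := by gcongr
    _ < (K + 1) * (ε / (K + 1)) := by gcongr; linarith
    _ = ε := by field

theorem Hor.mono {c : ℝ → V} {a b : ℝ → ℝ} {t0 t1 s0 s1 : ℝ} (h : Hor c a b t0 t1)
    (h0 : t0 ≤ s0) (h1 : s0 ≤ s1) (h2 : s1 ≤ t1) : Hor c a b s0 s1 := by
  refine ⟨h.1.mono ?_, ?_⟩
  · rw [uIcc_of_le h1, uIcc_of_le (by linarith)]
    exact Icc_subset_Icc h0 h2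
  · filter_upwards [h.2] with t ht hs
    exact ht ⟨h0.trans hs.1, hs.2.trans h2⟩

theorem cd {c : ℝ → V} {v : V} {t : ℝ} (h : HasDerivAt c v t) (i : Fin 5) :
    HasDerivAt (fun s => c s i) (v i) t := hasDerivAt_pi.1 h i

theorem Hor.ii {c : ℝ → V} {a b : ℝ → ℝ} {t0 t1 : ℝ} (h : Hor c a b t0 t1) (h01 : t0 ≤ t1) :
    IntervalIntegrable (fun t => √(a t ^ 2 + b t ^ 2)) volume t0 t1 := by
  have ha := (ac_comp h.1 (S := fun q => q 0) (by fun_prop)).intervalIntegrable_deriv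
  have hb := (ac_comp h.1 (S := fun q => q 4) (by fun_prop)).intervalIntegrable_deriv
  have hm : Measurable fun t => √(deriv (fun t => c t 0) t ^ 2 + deriv (fun t => c t 4) t ^ 2) := by
    have := measurable_deriv (fun t => c t 0)
    have := measurable_deriv (fun t => c t 4)
    fun_prop
  have h1 : IntervalIntegrable
      (fun t => √(deriv (fun t => c t 0) t ^ 2 + deriv (fun t => c t 4) t ^ 2)) volume t0 t1 := by
    refine (ha.abs.add hb.abs).mono_fun hm.aestronglyMeasurable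
      (Filter.Eventually.of_forall fun t => ?_)
    simp only [Real.norm_eq_abs]
    rw [abs_of_nonneg (Real.sqrt_nonneg _), abs_of_nonneg (by positivity), Real.sqrt_le_left
      (by positivity)]
    have := abs_nonneg (deriv (fun t => c t 0) t)
    have := abs_nonneg (deriv (fun t => c t 4) t)
    nlinarith [sq_abs (deriv (fun t => c t 0) t), sq_abs (deriv (fun t => c t 4) t)]
  refine h1.congr_ae ?_
  rw [uIoc_of_le h01, Filter.EventuallyEq, ae_restrict_iff' measurableSet_Ioc]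
  filter_upwards [h.2] with t ht hs
  have h2 := ht (Ioc_subset_Icc_self hs)
  rw [(cd h2 0).deriv, (cd h2 4).deriv]
  simp [X1, X2]

def Th (p0 p1 p2 p3 : ℝ) (q : V) : ℝ :=
  p0 * q 4 + p1 * (q 0 * q 4 - q 3) + p2 * (q 0 ^ 2 * q 4 - 2 * (q 0 * q 3) + 2 * q 2) +
    p3 * (q 0 ^ 3 * q 4 - 3 * (q 0 ^ 2 * q 3) + 6 * (q 0 * q 2) - 6 * q 1)

theorem Th_deriv (p0 p1 p2 p3 : ℝ) {c : ℝ → V} {a b t : ℝ}
    (h : HasDerivAt c (a • X1 (c t) + b • X2) t) :
    HasDerivAt (fun s => Th p0 p1 p2 p3 (c s))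
      ((p0 + p1 * c t 0 + p2 * c t 0 ^ 2 + p3 * c t 0 ^ 3) * b) t := by
  have h0 := cd h 0
  have h1 := cd h 1
  have h2 := cd h 2
  have h3 := cd h 3
  have h4 := cd h 4
  refine (((((h4.const_mul p0).add (((h0.mul h4).sub h3).const_mul p1)).add
    ((((((h0.pow 2).mul h4).sub ((h0.mul h3).const_mul 2)).add (h2.const_mul 2))).const_mul p2)).add
    (((((((h0.pow 3).mul h4).sub (((h0.pow 2).mul h3).const_mul 3)).add
      ((h0.mul h2).const_mul 6)).sub (h1.const_mul 6))).const_mul p3))).congr_deriv ?_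
  simp [X1, X2]
  ring

theorem calib {c : ℝ → V} {a b : ℝ → ℝ} {t0 t1 : ℝ} (h : Hor c a b t0 t1) (h01 : t0 ≤ t1)
    (p0 p1 p2 p3 : ℝ) (W g : ℝ → ℝ) (hW : ∀ x, HasDerivAt W (g x) x) (hg : Continuous g)
    (hb : ∀ t ∈ Icc t0 t1, g (c t 0) ^ 2 +
      (p0 + p1 * c t 0 + p2 * c t 0 ^ 2 + p3 * c t 0 ^ 3) ^ 2 ≤ 1) :
    (W (c t1 0) + Th p0 p1 p2 p3 (c t1)) - (W (c t0 0) + Th p0 p1 p2 p3 (c t0)) ≤
      ∫ t in t0..t1, √(a t ^ 2 + b t ^ 2) := by
  have hW1 : ContDiff ℝ 1 W := by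
    rw [contDiff_one_iff_deriv]
    refine ⟨fun x => (hW x).differentiableAt, ?_⟩
    have : deriv W = g := funext fun x => (hW x).deriv
    rwa [this]
  have hac := ac_comp h.1 (S := fun q => W (q 0) + Th p0 p1 p2 p3 q) (by unfold Th; fun_prop)
  rw [← hac.integral_deriv_eq_sub]
  refine intervalIntegral.integral_mono_ae_restrict h01 hac.intervalIntegrable_deriv (h.ii h01) ?_
  rw [Filter.EventuallyLE, ae_restrict_iff' measurableSet_Icc]
  filter_upwards [h.2] with t ht hs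
  have h2 := ht hs
  have h3 := ((hW (c t 0)).comp t (cd h2 0)).add (Th_deriv p0 p1 p2 p3 h2)
  have h4 : deriv (fun t => W (c t 0) + Th p0 p1 p2 p3 (c t)) t = g (c t 0) * a t +
      (p0 + p1 * c t 0 + p2 * c t 0 ^ 2 + p3 * c t 0 ^ 3) * b t := by
    refine (h3.deriv).trans ?_
    simp [X1, X2]
  rw [h4]
  refine Real.le_sqrt_of_sq_le ?_
  have h5 := hb t hs
  generalize g (c t 0) = u at *
  generalize (p0 + p1 * c t 0 + p2 * c t 0 ^ 2 + p3 * c t 0 ^ 3) = v at *
  nlinarith [sq_nonneg (u * b t - v * a t), sq_nonneg (a t), sq_nonneg (b t),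
    mul_le_mul_of_nonneg_right h5 (add_nonneg (sq_nonneg (a t)) (sq_nonneg (b t)))]

/-- Lipschitz horizontal curve joining `p` to `q` on `[t0,t1]` of length `L`. -/
def Reach (t0 t1 : ℝ) (p q : V) (L : ℝ) : Prop :=
  t0 ≤ t1 ∧ ∃ (c : ℝ → V) (a b : ℝ → ℝ) (K : ℝ≥0), LipschitzOnWith K c (Icc t0 t1) ∧
    (∀ᵐ t, t ∈ Icc t0 t1 → HasDerivAt c (a t • X1 (c t) + b t • X2) t) ∧ c t0 = p ∧ c t1 = q ∧
      ∫ t in t0..t1, √(a t ^ 2 + b t ^ 2) = L

theorem hor_of {c : ℝ → V} {a b : ℝ → ℝ} {t0 t1 : ℝ} {K : ℝ≥0} (h01 : t0 ≤ t1)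
    (hK : LipschitzOnWith K c (Icc t0 t1))
    (hd : ∀ᵐ t, t ∈ Icc t0 t1 → HasDerivAt c (a t • X1 (c t) + b t • X2) t) : Hor c a b t0 t1 :=
  ⟨LipschitzOnWith.absolutelyContinuousOnInterval (K := K) (by rwa [uIcc_of_le h01]), hd⟩

theorem Reach.trans {t0 t1 t2 : ℝ} {p q r : V} {L L' : ℝ} (h : Reach t0 t1 p q L)
    (h' : Reach t1 t2 q r L') : Reach t0 t2 p r (L + L') := by
  obtain ⟨h01, c, a, b, K, hK, hd, rfl, rfl, rfl⟩ := h
  obtain ⟨h12, c', a', b', K', hK', hd', he, rfl, rfl⟩ := h'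
  have i1 := (hor_of h01 hK hd).ii h01
  have i2 := (hor_of h12 hK' hd').ii h12
  refine ⟨h01.trans h12, fun t => c (min t t1) + c' (max t t1) - c t1,
    fun t => if t ≤ t1 then a t else a' t, fun t => if t ≤ t1 then b t else b' t, K + K' + 0,
    ?_, ?_, ?_, ?_, ?_⟩
  · refine LipschitzOnWith.sub (LipschitzOnWith.add ?_ ?_) (LipschitzWith.const _).lipschitzOnWith
    · have := hK.comp (s := Icc t0 t2) (LipschitzWith.id.min_const t1).lipschitzOnWith
        fun t ht => ⟨le_min ht.1 h01, min_le_right _ _⟩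
      rw [mul_one] at this
      exact this
    · have := hK'.comp (s := Icc t0 t2) (LipschitzWith.id.max_const t1).lipschitzOnWith
        fun t ht => ⟨le_max_right _ _, max_le ht.2 h12⟩
      rw [mul_one] at this
      exact this
  · have hne : ∀ᵐ t, t ≠ t1 := by simp [ae_iff, measure_singleton]
    filter_upwards [hd, hd', hne] with t h1 h2 h3 ht
    rcases lt_or_gt_of_ne h3 with h4 | h4
    · have e : (fun t => c (min t t1) + c' (max t t1) - c t1) =ᶠ[nhds t] c := by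
        filter_upwards [Iio_mem_nhds h4] with s hs
        rw [min_eq_left (le_of_lt hs), max_eq_right (le_of_lt hs), he]
        abel
      rw [if_pos h4.le, if_pos h4.le, e.eq_of_nhds]
      exact (h1 ⟨ht.1, h4.le⟩).congr_of_eventuallyEq e
    · have e : (fun t => c (min t t1) + c' (max t t1) - c t1) =ᶠ[nhds t] c' := by
        filter_upwards [Ioi_mem_nhds h4] with s hs
        rw [min_eq_right (le_of_lt hs), max_eq_left (le_of_lt hs)]
        abel
      rw [if_neg (not_le.2 h4), if_neg (not_le.2 h4), e.eq_of_nhds]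
      exact (h2 ⟨h4.le, ht.2⟩).congr_of_eventuallyEq e
  · simp only [min_eq_left h01, max_eq_right h01, he]
    abel
  · simp only [min_eq_right h12, max_eq_left h12]
    abel
  · have e1 : EqOn (fun t => √((if t ≤ t1 then a t else a' t) ^ 2 +
        (if t ≤ t1 then b t else b' t) ^ 2)) (fun t => √(a t ^ 2 + b t ^ 2)) (uIoc t0 t1) := by
      intro t ht
      rw [uIoc_of_le h01] at ht
      simp only [if_pos ht.2]
    have e2 : EqOn (fun t => √((if t ≤ t1 then a t else a' t) ^ 2 +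
        (if t ≤ t1 then b t else b' t) ^ 2)) (fun t => √(a' t ^ 2 + b' t ^ 2)) (uIoc t1 t2) := by
      intro t ht
      rw [uIoc_of_le h12] at ht
      simp only [if_neg (not_le.2 ht.1)]
    rw [← intervalIntegral.integral_add_adjacent_intervals (b := t1) (i1.congr e1.symm)
      (i2.congr e2.symm)]
    congr 1
    · exact intervalIntegral.integral_congr_ae (Filter.Eventually.of_forall fun t ht => e1 ht)
    · exact intervalIntegral.integral_congr_ae (Filter.Eventually.of_forall fun t ht => e2 ht)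

theorem reach_smooth {c : ℝ → V} {a b : ℝ → ℝ} {t0 t1 l : ℝ} (h01 : t0 ≤ t1)
    (hd : ∀ t, HasDerivAt c (a t • X1 (c t) + b t • X2) t) (ha : Continuous a) (hb : Continuous b)
    (hl : ∀ t, √(a t ^ 2 + b t ^ 2) = l) : Reach t0 t1 (c t0) (c t1) ((t1 - t0) * l) := by
  have hc : Continuous c := continuous_iff_continuousAt.2 fun t => (hd t).continuousAt
  have h1 : ContDiff ℝ 1 c := by
    rw [contDiff_one_iff_deriv]
    refine ⟨fun x => (hd x).differentiableAt, ?_⟩
    have : deriv c = fun t => a t • X1 (c t) + b t • X2 := funext fun x => (hd x).deriv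
    rw [this]
    have : Continuous fun t => X1 (c t) := by
      refine continuous_pi fun i => ?_
      fin_cases i <;> simp [X1] <;> fun_prop
    fun_prop
  obtain ⟨K, hK⟩ := (h1.contDiffOn (s := Icc t0 t1)).exists_lipschitzOnWith (by decide)
    (convex_Icc _ _) isCompact_Icc
  refine ⟨h01, c, a, b, K, hK, Filter.Eventually.of_forall fun t _ => hd t, rfl, rfl, ?_⟩
  simp [hl]

def Phi (x m0 m1 m2 m3 : ℝ) : V :=
  ![x, (x ^ 3 * m0 - 3 * (x ^ 2 * m1) + 3 * (x * m2) - m3) / 6,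
    (x ^ 2 * m0 - 2 * (x * m1) + m2) / 2, x * m0 - m1, m0]

theorem Phi_deriv {x m0 m1 m2 m3 : ℝ → ℝ} {a b t : ℝ} (hx : HasDerivAt x a t)
    (h0 : HasDerivAt m0 b t) (h1 : HasDerivAt m1 (x t * b) t) (h2 : HasDerivAt m2 (x t ^ 2 * b) t)
    (h3 : HasDerivAt m3 (x t ^ 3 * b) t) :
    HasDerivAt (fun s => Phi (x s) (m0 s) (m1 s) (m2 s) (m3 s))
      (a • X1 (Phi (x t) (m0 t) (m1 t) (m2 t) (m3 t)) + b • X2) t := by
  rw [hasDerivAt_pi]
  intro i
  fin_cases i
  · exact hx.congr_deriv (by simp [X1, X2])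
  · refine ((((((hx.pow 3).mul h0).sub (((hx.pow 2).mul h1).const_mul 3)).add
      ((hx.mul h2).const_mul 3)).sub h3).div_const 6).congr_deriv ?_
    simp [X1, X2, Phi]
    ring
  · refine (((((hx.pow 2).mul h0).sub ((hx.mul h1).const_mul 2)).add h2).div_const 2).congr_deriv ?_
    simp [X1, X2, Phi]
    ring
  · refine ((hx.mul h0).sub h1).congr_deriv ?_
    simp [X1, X2, Phi]
  · exact h0.congr_deriv (by simp [X1, X2])

theorem lin (u v t0 t : ℝ) : HasDerivAt (fun s => u + (s - t0) * v) v t :=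
  ((((hasDerivAt_id t).sub_const t0).mul_const v).const_add u).congr_deriv (by simp)

theorem moveH (t0 t1 x x' m0 m1 m2 m3 : ℝ) (h : t1 = t0 + 1) :
    Reach t0 t1 (Phi x m0 m1 m2 m3) (Phi x' m0 m1 m2 m3) |x' - x| := by
  subst h
  have := reach_smooth (t0 := t0) (t1 := t0 + 1) (l := |x' - x|) (by linarith)
    (c := fun s => Phi (x + (s - t0) * (x' - x)) m0 m1 m2 m3) (a := fun _ => x' - x)
    (b := fun _ => 0) (fun t => Phi_deriv (lin _ _ _ _) (hasDerivAt_const _ _)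
      ((hasDerivAt_const _ _).congr_deriv (by simp)) ((hasDerivAt_const _ _).congr_deriv (by simp))
      ((hasDerivAt_const _ _).congr_deriv (by simp))) continuous_const continuous_const
    (fun t => by simp [Real.sqrt_sq_eq_abs])
  simpa using this

theorem moveV (t0 t1 x m0 m1 m2 m3 k : ℝ) (h : t1 = t0 + 1) :
    Reach t0 t1 (Phi x m0 m1 m2 m3)
      (Phi x (m0 + k) (m1 + x * k) (m2 + x ^ 2 * k) (m3 + x ^ 3 * k)) |k| := by
  subst h
  have := reach_smooth (t0 := t0) (t1 := t0 + 1) (l := |k|) (by linarith)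
    (c := fun s => Phi x (m0 + (s - t0) * k) (m1 + (s - t0) * (x * k)) (m2 + (s - t0) * (x ^ 2 * k))
      (m3 + (s - t0) * (x ^ 3 * k))) (a := fun _ => 0)
    (b := fun _ => k) (fun t => Phi_deriv (x := fun _ => x) (hasDerivAt_const _ _) (lin _ _ _ _)
      (lin _ _ _ _) (lin _ _ _ _) (lin _ _ _ _)) continuous_const continuous_const
    (fun t => by simp [Real.sqrt_sq_eq_abs])
  simpa using this

end

end Pool.Agent.H.MP_8ed827_gt
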