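import Mathlib

open MeasureTheory Set
open scoped ENNReal

namespace Pool.Agent.H.MP_8ed827_gt

noncomputable section

/-- Coordinates on the jet space J^3: q 0 = x, q 1 = u_0, q 2 = u_1, q 3 = u_2, q 4 = u_3. -/
def X1 (q : Fin 5 → ℝ) : Fin 5 → ℝ := ![1, q 2, q 3, q 4, 0]

def X2 : Fin 5 → ℝ := ![0, 0, 0, 0, 1]

/-- The normal Hamiltonian. -/
def Ham (q p : Fin 5 → ℝ) : ℝ := ((p ⬝ᵥ X1 q) ^ 2 + (p ⬝ᵥ X2) ^ 2) / 2

/-- Projection of a trajectory of the Hamiltonian flow on the level 1/2. -/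
def Geod (g : ℝ → Fin 5 → ℝ) : Prop :=
  ∃ p : ℝ → Fin 5 → ℝ, ∀ t, Ham (g t) (p t) = 1 / 2 ∧ ∀ i,
    HasDerivAt (fun s => g s i) (deriv (fun r => Ham (g t) (Function.update (p t) i r)) (p t i)) t ∧
    HasDerivAt (fun s => p s i) (-deriv (fun r => Ham (Function.update (g t) i r) (p t)) (g t i)) t

/-- `c` is a horizontal curve on `[t0, t1]` with controls `a`, `b`. -/
def Hor (c : ℝ → Fin 5 → ℝ) (a b : ℝ → ℝ) (t0 t1 : ℝ) : Prop :=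
  AbsolutelyContinuousOnInterval c t0 t1 ∧
    ∀ᵐ t, t ∈ Icc t0 t1 → HasDerivAt c (a t • X1 (c t) + b t • X2) t

/-- No horizontal curve from `g 0` to `g T` has length less than `T`. -/
def Mini (g : ℝ → Fin 5 → ℝ) (T : ℝ) : Prop :=
  ∀ c a b t0 t1, t0 ≤ t1 → Hor c a b t0 t1 → c t0 = g 0 → c t1 = g T →
    T ≤ ∫ t in t0..t1, √(a t ^ 2 + b t ^ 2)

/-- The cut time. -/
def tcut (g : ℝ → Fin 5 → ℝ) : ℝ≥0∞ := ⨆ (T : ℝ) (_ : 0 < T ∧ Mini g T), ENNReal.ofReal T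

end

end Pool.Agent.H.MP_8ed827_gt
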