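import Pool.Agent.H.MP_8ed827_gt.Cal

open MeasureTheory Set
open scoped ENNReal NNReal

namespace Pool.Agent.H.MP_8ed827_gt

noncomputable section

def sg (t : ℝ) : ℝ := Real.sinh (√3 / 2 * t)
def ka (t : ℝ) : ℝ := Real.cosh (√3 / 2 * t)
def ro (t : ℝ) : ℝ := √(3 + 4 * sg t ^ 2)
def xx (t : ℝ) : ℝ := 2 * sg t / ro t
def ww (t : ℝ) : ℝ := 2 * √3 * ka t / ro t

theorem r3 : √3 ^ 2 = (3:ℝ) := Real.sq_sqrt (by norm_num)
theorem ro_pos (t : ℝ) : 0 < ro t := Real.sqrt_pos.2 (by positivity)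
theorem ro_sq (t : ℝ) : ro t ^ 2 = 3 + 4 * sg t ^ 2 := Real.sq_sqrt (by positivity)
theorem ka_sq (t : ℝ) : ka t ^ 2 = sg t ^ 2 + 1 := Real.cosh_sq _

theorem sg_d (t : ℝ) : HasDerivAt sg (√3 / 2 * ka t) t :=
  (((hasDerivAt_id t).const_mul (√3 / 2)).sinh).congr_deriv (by simp [ka]; ring)

theorem ka_d (t : ℝ) : HasDerivAt ka (√3 / 2 * sg t) t :=
  (((hasDerivAt_id t).const_mul (√3 / 2)).cosh).congr_deriv (by simp [sg]; ring)

theorem ro_d (t : ℝ) : HasDerivAt ro (2 * √3 * sg t * ka t / ro t) t := by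
  refine (((((sg_d t).pow 2).const_mul 4).const_add 3).sqrt
    (show (0:ℝ) < 3 + 4 * sg t ^ 2 by positivity).ne').congr_deriv ?_
  have := ro_pos t
  change _ / (2 * ro t) = _
  field_simp
  simp
  ring

theorem xx_sq (t : ℝ) : 1 - xx t ^ 2 = 3 / ro t ^ 2 := by
  have := ro_pos t
  unfold xx
  field_simp
  rw [ro_sq]
  ring

theorem xx_d (t : ℝ) : HasDerivAt xx ((1 - xx t ^ 2) * ww t / 2) t := by
  refine (((sg_d t).const_mul 2).div (ro_d t) (ro_pos t).ne').congr_deriv ?_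
  rw [xx_sq]
  have := ro_pos t
  unfold ww
  field_simp
  rw [ro_sq]
  ring

theorem ww_d (t : ℝ) : HasDerivAt ww (-(xx t * (1 - xx t ^ 2)) / 2) t := by
  refine (((ka_d t).const_mul (2 * √3)).div (ro_d t) (ro_pos t).ne').congr_deriv ?_
  rw [xx_sq]
  have := ro_pos t
  unfold xx
  field_simp
  rw [ro_sq, r3, ka_sq]
  ring

theorem ww_sq (t : ℝ) : ww t ^ 2 = 4 - xx t ^ 2 := by
  have := ro_pos t
  unfold xx ww
  field_simp
  rw [ro_sq, r3, ka_sq]
  ring

theorem ww_pos (t : ℝ) : 0 < ww t := by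
  have := ro_pos t
  have : 0 < ka t := Real.cosh_pos _
  unfold ww
  positivity

theorem xx_le (t : ℝ) : xx t ^ 2 ≤ 1 := by
  have h := xx_sq t
  have : 0 ≤ 3 / ro t ^ 2 := by positivity
  linarith

theorem xx_abs (t : ℝ) : -1 ≤ xx t ∧ xx t ≤ 1 := abs_le.1 ((sq_le_one_iff_abs_le_one _).1 (xx_le t))

theorem xx_neg (t : ℝ) : xx (-t) = -xx t := by
  simp [xx, ro, sg, neg_div]

theorem xx_ge {t : ℝ} (ht : 2 ≤ t) : 2 / 3 ≤ xx t := by
  have h3 : (1:ℝ) ≤ √3 := Real.one_le_sqrt.2 (by norm_num)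
  have h1 : 1 ≤ √3 / 2 * t := by nlinarith
  have h2 : 1 ≤ sg t := h1.trans (Real.self_le_sinh_iff.2 (by linarith))
  have h4 : ro t ≤ 3 * sg t := by
    refine Real.sqrt_le_iff.2 ⟨by positivity, by nlinarith⟩
  unfold xx
  rw [div_le_div_iff₀ (by norm_num) (ro_pos t)]
  linarith

theorem xx_c : Continuous xx := continuous_iff_continuousAt.2 fun t => (xx_d t).continuousAt
theorem ww_c : Continuous ww := continuous_iff_continuousAt.2 fun t => (ww_d t).continuousAt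

def FF (t : ℝ) : ℝ := (xx t ^ 3 - 3 * xx t) / 2
def AA (t : ℝ) : ℝ := (1 - xx t ^ 2) * ww t / 2

theorem FF_c : Continuous FF := by
  have := xx_c
  unfold FF
  fun_prop

theorem AA_c : Continuous AA := by
  have := xx_c
  have := ww_c
  unfold AA
  fun_prop

theorem unit (t : ℝ) : AA t ^ 2 + FF t ^ 2 = 1 := by
  unfold AA FF
  rw [div_pow, mul_pow, ww_sq]
  ring

theorem FF_abs (t : ℝ) : |FF t| ≤ 1 := by
  rw [← sq_le_one_iff_abs_le_one]
  nlinarith [unit t, sq_nonneg (AA t)]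

def MM (j : ℕ) (t : ℝ) : ℝ := ∫ s in (0:ℝ)..t, xx s ^ j * FF s

theorem MM_d (j : ℕ) (t : ℝ) : HasDerivAt (MM j) (xx t ^ j * FF t) t := by
  have : Continuous fun s => xx s ^ j * FF s := (xx_c.pow j).mul FF_c
  exact intervalIntegral.integral_hasDerivAt_right (this.intervalIntegrable _ _)
    (this.stronglyMeasurableAtFilter _ _) this.continuousAt

def gam (t : ℝ) : V := Phi (xx t) (MM 0 t) (MM 1 t) (MM 2 t) (MM 3 t)

theorem gam_d (t : ℝ) : HasDerivAt gam (AA t • X1 (gam t) + FF t • X2) t :=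
  Phi_deriv (xx_d t) ((MM_d 0 t).congr_deriv (by simp)) ((MM_d 1 t).congr_deriv (by simp))
    (MM_d 2 t) (MM_d 3 t)

theorem gam0 (t : ℝ) : gam t 0 = xx t := rfl

theorem AA_d (t : ℝ) : HasDerivAt AA (-(FF t * ((3 * xx t ^ 2 - 3) / 2))) t := by
  refine ((((((xx_d t).pow 2).const_sub 1).mul (ww_d t))).div_const 2).congr_deriv ?_
  have := ww_sq t
  simp only [FF, Pi.pow_apply, Nat.cast_ofNat, Nat.add_one_sub_one, pow_one]
  linear_combination (-(xx t) * (1 - xx t ^ 2) / 2) * this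

theorem dq (A B C D s0 : ℝ) (f : ℝ → ℝ) (hf : ∀ s, f s = ((A + B * s) ^ 2 + (C + D * s) ^ 2) / 2) :
    deriv f s0 = (A + B * s0) * B + (C + D * s0) * D := by
  have : f = fun s => ((A + B * s) ^ 2 + (C + D * s) ^ 2) / 2 := funext hf
  rw [this]
  have h := ((((((hasDerivAt_id s0).const_mul B).const_add A).pow 2).add
    ((((hasDerivAt_id s0).const_mul D).const_add C).pow 2)).div_const 2).deriv
  refine Eq.trans ?_ (h.trans ?_)
  · rfl
  · simp
    ring

theorem Ham_eq (q p : V) : Ham q p =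
    ((p 0 + q 2 * p 1 + q 3 * p 2 + q 4 * p 3) ^ 2 + p 4 ^ 2) / 2 := by
  simp [Ham, X1, X2, dotProduct, Fin.sum_univ_five]
  ring

theorem dHp (q p : V) (i : Fin 5) : deriv (fun r => Ham q (Function.update p i r)) (p i) =
    ((p 0 + q 2 * p 1 + q 3 * p 2 + q 4 * p 3) • X1 q + p 4 • X2) i := by
  fin_cases i
  · rw [dq (q 2 * p 1 + q 3 * p 2 + q 4 * p 3) 1 (p 4) 0 _ _ fun s => by simp [Ham_eq]; ring]
    simp [X1, X2]; ring
  · rw [dq (p 0 + q 3 * p 2 + q 4 * p 3) (q 2) (p 4) 0 _ _ fun s => by simp [Ham_eq]; ring]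
    simp [X1, X2]; left; ring
  · rw [dq (p 0 + q 2 * p 1 + q 4 * p 3) (q 3) (p 4) 0 _ _ fun s => by simp [Ham_eq]; ring]
    simp [X1, X2]; left; ring
  · rw [dq (p 0 + q 2 * p 1 + q 3 * p 2) (q 4) (p 4) 0 _ _ fun s => by simp [Ham_eq]]
    simp [X1, X2]
  · rw [dq (p 0 + q 2 * p 1 + q 3 * p 2 + q 4 * p 3) 0 0 1 _ _ fun s => by simp [Ham_eq]]
    simp [X1, X2]

theorem dHq (q p : V) (i : Fin 5) : deriv (fun r => Ham (Function.update q i r) p) (q i) =
    (p 0 + q 2 * p 1 + q 3 * p 2 + q 4 * p 3) * (![0, 0, p 1, p 2, p 3] : V) i := by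
  fin_cases i
  · rw [dq (p 0 + q 2 * p 1 + q 3 * p 2 + q 4 * p 3) 0 (p 4) 0 _ _ fun s => by simp [Ham_eq]]
    simp
  · rw [dq (p 0 + q 2 * p 1 + q 3 * p 2 + q 4 * p 3) 0 (p 4) 0 _ _ fun s => by simp [Ham_eq]]
    simp
  · rw [dq (p 0 + q 3 * p 2 + q 4 * p 3) (p 1) (p 4) 0 _ _ fun s => by simp [Ham_eq]; ring]
    simp; left; ring
  · rw [dq (p 0 + q 2 * p 1 + q 4 * p 3) (p 2) (p 4) 0 _ _ fun s => by simp [Ham_eq]; ring]
    simp; left; ring
  · rw [dq (p 0 + q 2 * p 1 + q 3 * p 2) (p 3) (p 4) 0 _ _ fun s => by simp [Ham_eq]; ring]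
    simp; left; ring

def cov (t : ℝ) : V :=
  ![AA t - (gam t 2 * (-3) + gam t 3 * (3 * xx t) + gam t 4 * (-((3 * xx t ^ 2 - 3) / 2))),
    -3, 3 * xx t, -((3 * xx t ^ 2 - 3) / 2), FF t]

theorem cov_P (t : ℝ) :
    cov t 0 + gam t 2 * cov t 1 + gam t 3 * cov t 2 + gam t 4 * cov t 3 = AA t := by
  simp [cov]
  ring

theorem geod : Geod gam := by
  refine ⟨cov, fun t => ⟨?_, fun i => ⟨?_, ?_⟩⟩⟩
  · rw [Ham_eq, cov_P]
    have := unit t
    change (AA t ^ 2 + FF t ^ 2) / 2 = _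
    rw [this]
  · rw [dHp, cov_P]
    exact cd (gam_d t) i
  · rw [dHq, cov_P]
    have hx : HasDerivAt xx (AA t) t := xx_d t
    have h3 := (((((hx.pow 2).const_mul 3).sub_const 3).div_const 2)).neg
    fin_cases i
    · refine ((AA_d t).sub ((((cd (gam_d t) 2).mul_const (-3)).add
        ((cd (gam_d t) 3).mul (hx.const_mul 3))).add ((cd (gam_d t) 4).mul h3))).congr_deriv ?_
      simp [X1, X2]
      ring
    · exact (hasDerivAt_const t (-3 : ℝ)).congr_deriv (by simp)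
    · exact (hx.const_mul 3).congr_deriv (by simp [cov]; ring)
    · exact h3.congr_deriv (by simp [cov]; ring)
    · refine (((hx.pow 3).sub (hx.const_mul 3)).div_const 2).congr_deriv ?_
      simp [cov]
      ring

theorem mono_of {f f' : ℝ → ℝ} {s t : ℝ} (hst : s ≤ t) (hd : ∀ u, HasDerivAt f (f' u) u)
    (h : ∀ u, s ≤ u → 0 ≤ f' u) : f s ≤ f t := by
  refine monotoneOn_of_deriv_nonneg (convex_Ici s) (fun u _ => (hd u).continuousAt.continuousWithinAt)
    (fun u _ => (hd u).differentiableAt.differentiableWithinAt) (fun u hu => ?_)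
    (mem_Ici.2 le_rfl) (mem_Ici.2 hst) hst
  rw [(hd u).deriv]
  exact h u (interior_subset hu)

def GG (x : ℝ) : ℝ := (1 - x ^ 2) * √(4 - x ^ 2) / 2

theorem GG_c : Continuous GG := by
  unfold GG
  fun_prop

theorem GG_x (t : ℝ) : GG (xx t) = AA t := by
  unfold GG AA
  rw [← ww_sq, Real.sqrt_sq (ww_pos t).le]

theorem ray (T : ℝ) (hT : 0 ≤ T) : Mini (fun t => gam (t + 2)) T := by
  intro c a b t0 t1 h01 h hc0 hc1
  simp only [zero_add] at hc0 hc1
  have hcont : ContinuousOn (fun t => |c t 0 - 1|) (Icc t0 t1) := by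
    have h1 := h.1.continuousOn
    rw [uIcc_of_le h01] at h1
    exact (((continuous_apply 0).comp_continuousOn h1).sub continuousOn_const).abs
  obtain ⟨ts, hts, hmax⟩ := isCompact_Icc.exists_isMaxOn (nonempty_Icc.2 h01) hcont
  set R := |c ts 0 - 1| with hR
  have hb : ∀ t ∈ Icc t0 t1, |c t 0 - 1| ≤ R := fun t ht => hmax ht
  rcases le_or_gt R 1 with h1 | h1
  · have hW : ∀ x, HasDerivAt (fun x => ∫ s in (0:ℝ)..x, GG s) (GG x) x := fun x =>
      intervalIntegral.integral_hasDerivAt_right (GG_c.intervalIntegrable _ _)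
        (GG_c.stronglyMeasurableAtFilter _ _) GG_c.continuousAt
    have h2 := calib h h01 0 (-3 / 2) 0 (1 / 2) _ GG hW GG_c fun t ht => by
      have h3 := abs_le.1 ((hb t ht).trans h1)
      have h4 : 0 ≤ 4 - c t 0 ^ 2 := by nlinarith [h3.1, h3.2]
      unfold GG
      rw [div_pow, mul_pow, Real.sq_sqrt h4]
      exact le_of_eq (by ring)
    rw [hc0, hc1] at h2
    refine le_trans ?_ h2
    have h5 := mono_of (s := 2) (t := T + 2) (by linarith) (f' := fun _ => 0)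
      (f := fun u => (∫ s in (0:ℝ)..(gam u 0), GG s) + Th 0 (-3 / 2) 0 (1 / 2) (gam u) - u)
      (fun u => ((((hW (xx u)).comp u (xx_d u)).add (Th_deriv 0 (-3 / 2) 0 (1 / 2) (gam_d u))).sub
        (hasDerivAt_id u)).congr_deriv (by
          have := unit u
          rw [GG_x, gam0]
          unfold FF AA at *
          linear_combination this)) (fun _ _ => le_rfl)
    linarith
  · have hR0 : 0 < R := by linarith
    have hP : ∀ x : ℝ, (-1 + 2 / R ^ 2) + (-4 / R ^ 2) * x + (2 / R ^ 2) * x ^ 2 + 0 * x ^ 3 =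
        -1 + 2 * ((x - 1) / R) ^ 2 := fun x => by ring
    have hz : ∀ t ∈ Icc t0 t1, ((c t 0 - 1) / R) ^ 2 ≤ 1 := fun t ht => by
      rw [div_pow, div_le_one (by positivity), ← sq_abs]
      exact pow_le_pow_left₀ (abs_nonneg _) (hb t ht) 2
    have hW : ∀ x, HasDerivAt (fun x => R * (((x - 1) / R) ^ 2 - ((x - 1) / R) ^ 4 / 2))
        (2 * ((x - 1) / R) - 2 * ((x - 1) / R) ^ 3) x := fun x => by
      have h0 := ((hasDerivAt_id x).sub_const 1).div_const R
      refine (((h0.pow 2).sub ((h0.pow 4).div_const 2)).const_mul R).congr_deriv ?_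
      simp
      field_simp
      ring
    have h2 := calib (h.mono le_rfl hts.1 hts.2) hts.1 (-1 + 2 / R ^ 2) (-4 / R ^ 2) (2 / R ^ 2) 0 _ _
      hW (by fun_prop) fun t ht => by
        rw [hP]
        have h3 := hz t ⟨ht.1, ht.2.trans hts.2⟩
        generalize (c t 0 - 1) / R = z at *
        nlinarith [mul_nonneg (sq_nonneg (z ^ 2)) (sub_nonneg.2 h3)]
    have h3 := calib (h.mono hts.1 hts.2 le_rfl) hts.2 (-1 + 2 / R ^ 2) (-4 / R ^ 2) (2 / R ^ 2) 0
      (fun _ => 0) (fun _ => 0) (fun x => hasDerivAt_const _ _) continuous_const fun t ht => by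
        rw [hP]
        have h3 := hz t ⟨hts.1.trans ht.1, ht.2⟩
        generalize (c t 0 - 1) / R = z at *
        nlinarith [mul_nonneg (sq_nonneg z) (sub_nonneg.2 h3)]
    rw [← intervalIntegral.integral_add_adjacent_intervals (b := ts)
      ((h.mono le_rfl hts.1 hts.2).ii hts.1) ((h.mono hts.1 hts.2 le_rfl).ii hts.2)]
    have h4 : ((c ts 0 - 1) / R) ^ 2 = 1 := by
      rw [div_pow, ← sq_abs, ← hR, div_self (by positivity)]
    have h4' : ((c ts 0 - 1) / R) ^ 4 = 1 := by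
      have : ((c ts 0 - 1) / R) ^ 4 = (((c ts 0 - 1) / R) ^ 2) ^ 2 := by ring
      rw [this, h4, one_pow]
    rw [h4, h4', hc0, gam0] at h2
    rw [hc1] at h3
    have h5 := mono_of (s := 2) (t := T + 2) (by linarith)
      (f' := fun u => (-1 + 2 * ((xx u - 1) / R) ^ 2) * FF u - 1 + 7 * (1 - xx u) * AA u)
      (f := fun u => Th (-1 + 2 / R ^ 2) (-4 / R ^ 2) (2 / R ^ 2) 0 (gam u) - u -
        7 / 2 * (1 - xx u) ^ 2)
      (fun u => (((Th_deriv _ _ _ _ (gam_d u)).sub (hasDerivAt_id u)).sub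
        ((((xx_d u).const_sub 1).pow 2).const_mul (7 / 2))).congr_deriv (by
          rw [hP, gam0]
          simp [AA]
          ring)) (fun u hu => by
        have g1 := xx_ge hu
        have g2 := (xx_abs u).2
        have g3 := abs_le.1 (FF_abs u)
        have g4 : ((xx u - 1) / R) ^ 2 ≤ (1 - xx u) ^ 2 := by
          rw [div_pow, div_le_iff₀ (by positivity)]
          nlinarith [mul_le_mul_of_nonneg_left (show 1 ≤ R ^ 2 by nlinarith) (sq_nonneg (1 - xx u))]
        have g5 : 1 ≤ ww u := by nlinarith [ww_sq u, ww_pos u, xx_le u]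
        have g6 : (1 - xx u) / 2 ≤ AA u := by
          unfold AA
          have : 1 ≤ (1 + xx u) * ww u := by nlinarith
          nlinarith [mul_le_mul_of_nonneg_left this (sub_nonneg.2 g2)]
        have g7 : 1 + FF u ≤ 3 / 2 * (1 - xx u) ^ 2 := by
          unfold FF
          nlinarith [mul_nonneg (sq_nonneg (1 - xx u)) (sub_nonneg.2 g2)]
        have g8 := mul_le_mul_of_nonneg_left g6 (sub_nonneg.2 g2)
        have g9 : 0 ≤ ((xx u - 1) / R) ^ 2 * (1 + FF u) := mul_nonneg (sq_nonneg _) (by linarith)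
        nlinarith)
    have g1 := xx_ge (le_refl 2)
    have g2 := (xx_abs 2).2
    have g4 : R * ((xx 2 - 1) / R) ^ 2 ≤ (1 - xx 2) ^ 2 := by
      rw [div_pow, ← mul_div_assoc, div_le_iff₀ (by positivity)]
      nlinarith [mul_le_mul_of_nonneg_left (show R ≤ R ^ 2 by nlinarith) (sq_nonneg (1 - xx 2))]
    have g5 : 0 ≤ R * ((xx 2 - 1) / R) ^ 4 := by positivity
    have g6 : (1 - xx 2) ^ 2 ≤ 1 / 9 := by nlinarith
    have g7 := sq_nonneg (1 - xx (T + 2))
    nlinarith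

theorem MM_even (j : ℕ) (hj : Even j) (t : ℝ) : MM j (-t) = MM j t := by
  have h : ∀ u, HasDerivAt (fun u => MM j (-u) - MM j u) 0 u := fun u => by
    refine (((MM_d j (-u)).comp u (hasDerivAt_neg u)).sub (MM_d j u)).congr_deriv ?_
    simp only [FF, xx_neg, hj.neg_pow]
    ring
  have h1 := is_const_of_deriv_eq_zero (fun u => (h u).differentiableAt) (fun u => (h u).deriv) t 0
  simp only [neg_zero, sub_self] at h1
  linarith

theorem mvt {f f' : ℝ → ℝ} {C : ℝ} (hd : ∀ u, HasDerivAt f (f' u) u) (h : ∀ u, |f' u| ≤ C) :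
    |f 100 - f (-100)| ≤ 200 * C := by
  have := convex_univ.norm_image_sub_le_of_norm_hasDerivWithin_le (f := f) (f' := f') (C := C)
    (fun u _ => (hd u).hasDerivWithinAt) (fun u _ => h u) (mem_univ (-100)) (mem_univ 100)
  norm_num at this
  linarith

theorem short : ∃ L < 200, Reach 91 100 (gam (-100)) (gam 100) L := by
  set A := MM 1 100 - MM 1 (-100) with hA
  set B := MM 3 100 - MM 3 (-100) with hB
  have b1 : |(MM 3 100 - 9 * MM 1 100) - (MM 3 (-100) - 9 * MM 1 (-100))| ≤ 200 * 8 :=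
    mvt (f := fun u => MM 3 u - 9 * MM 1 u) (fun u => (MM_d 3 u).sub ((MM_d 1 u).const_mul 9))
      fun u => by
        have g := xx_abs u
        have g1 : |xx u ^ 3 - 9 * xx u| ≤ 8 := abs_le.2 ⟨by nlinarith [g.1, g.2, xx_le u],
          by nlinarith [g.1, g.2, xx_le u]⟩
        rw [show xx u ^ 3 * FF u - 9 * (xx u ^ 1 * FF u) = (xx u ^ 3 - 9 * xx u) * FF u by ring,
          abs_mul]
        nlinarith [FF_abs u, abs_nonneg (FF u), abs_nonneg (xx u ^ 3 - 9 * xx u)]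
  have b2 : |(9 * MM 1 100 - 4 * MM 3 100) - (9 * MM 1 (-100) - 4 * MM 3 (-100))| ≤ 200 * 9 :=
    mvt (f := fun u => 9 * MM 1 u - 4 * MM 3 u)
      (fun u => ((MM_d 1 u).const_mul 9).sub ((MM_d 3 u).const_mul 4))
      fun u => by
        have g := xx_abs u
        have g1 : |9 * xx u - 4 * xx u ^ 3| ≤ 9 := abs_le.2 ⟨by nlinarith [g.1, g.2, xx_le u],
          by nlinarith [g.1, g.2, xx_le u]⟩
        rw [show 9 * (xx u ^ 1 * FF u) - 4 * (xx u ^ 3 * FF u) =
          (9 * xx u - 4 * xx u ^ 3) * FF u by ring, abs_mul]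
        nlinarith [FF_abs u, abs_nonneg (FF u), abs_nonneg (9 * xx u - 4 * xx u ^ 3)]
  have hk : |4 * (B - 9 * A) / 81| ≤ 6400 / 81 := by
    have := abs_le.1 b1
    exact abs_le.2 ⟨by linarith [this.1], by linarith [this.2]⟩
  have hm : |(9 * A - 4 * B) / 162| ≤ 1800 / 162 := by
    have := abs_le.1 b2
    exact abs_le.2 ⟨by linarith [this.1], by linarith [this.2]⟩
  have r := ((((((((moveH 91 92 (xx (-100)) (-3) (MM 0 (-100)) (MM 1 (-100)) (MM 2 (-100))
    (MM 3 (-100)) (by norm_num)).trans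
    (moveV 92 93 _ _ _ _ _ ((9 * A - 4 * B) / 162) (by norm_num))).trans
    (moveH 93 94 _ (-3 / 2) _ _ _ _ (by norm_num))).trans
    (moveV 94 95 _ _ _ _ _ (4 * (B - 9 * A) / 81) (by norm_num))).trans
    (moveH 95 96 _ (3 / 2) _ _ _ _ (by norm_num))).trans
    (moveV 96 97 _ _ _ _ _ (-(4 * (B - 9 * A) / 81)) (by norm_num))).trans
    (moveH 97 98 _ 3 _ _ _ _ (by norm_num))).trans
    (moveV 98 99 _ _ _ _ _ (-((9 * A - 4 * B) / 162)) (by norm_num))).trans
    (moveH 99 100 _ (xx 100) _ _ _ _ (by norm_num))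
  refine ⟨_, ?_, by
    refine (congrArg (fun z => Reach 91 100 (gam (-100)) z _) ?_).mpr r
    unfold gam
    congr 1
    · rw [MM_even 0 (by decide)]; ring
    · rw [hA, hB]; ring
    · rw [MM_even 2 (by decide)]; ring
    · rw [hA, hB]; ring⟩
  have g1 := xx_abs 100
  have g2 := xx_abs (-100)
  have e1 : |-3 - xx (-100)| ≤ 4 := abs_le.2 ⟨by linarith [g2.2], by linarith [g2.1]⟩
  have e2 : |xx 100 - 3| ≤ 4 := abs_le.2 ⟨by linarith [g1.1], by linarith [g1.2]⟩
  rw [abs_neg, abs_neg]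
  norm_num [abs_of_pos] at *
  linarith

theorem notMin (T : ℝ) (hT : 200 ≤ T) : ¬ Mini (fun t => gam (t + -100)) T := by
  intro h
  obtain ⟨L, hL, r⟩ := short
  have r2 := reach_smooth (t0 := 100) (t1 := T + -100) (l := 1) (by linarith) gam_d AA_c FF_c
    fun t => by rw [unit, Real.sqrt_one]
  obtain ⟨h01, c, a, b, K, hK, hd, e0, e1, e2⟩ := r.trans r2
  have := h c a b _ _ h01 (hor_of h01 hK hd) (by simpa using e0) e1
  rw [e2] at this
  linarith

theorem tcut_top : tcut (fun t => gam (t + 2)) = ⊤ := by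
  refine ENNReal.eq_top_of_forall_nnreal_le fun r => ?_
  refine le_trans ?_ (le_iSup₂_of_le (f := fun (T : ℝ) (_ : 0 < T ∧ Mini (fun t => gam (t + 2)) T) =>
    ENNReal.ofReal T) ((r : ℝ) + 1) ⟨by positivity, ray _ (by positivity)⟩ le_rfl)
  rw [← ENNReal.ofReal_coe_nnreal]
  exact ENNReal.ofReal_le_ofReal (by linarith)

theorem tcut_fin : tcut (fun t => gam (t + -100)) ≤ ENNReal.ofReal 200 := by
  refine iSup₂_le fun T hT => ENNReal.ofReal_le_ofReal ?_
  by_contra h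
  exact notMin T (by linarith) hT.2

end

end Pool.Agent.H.MP_8ed827_gt
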